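import Pool.Agent.Helper57.Env.Asm5
import Pool.Agent.Helper57.Env.ParI
import Pool.Agent.Helper3.Env.Charge
import Pool.Agent.Helper3.Env.Dich
import Pool.Agent.Helper42.Env.Clean2
import Pool.Agent.Helper77.Env.Rec
import Pool.Agent.Helper8.Env.Edges
import Pool.Agent.Helper8.Env.Faces
import Pool.Agent.Helper89.Env.Outer
import Pool.Agent.Helper89.Env.Nest
import Pool.Agent.Helper89.Env.Clean1
import Pool.Agent.Helper89.Env.Sample

/-!
# MP_07d5fa_co: lower envelopes of bivariate functions have complexity `O(n ^ (2 + ε))`

For all `s`, `t` and `ε > 0` there is a constant `C` such that every family `f` of `n` continuous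
functions on the plane with

* any three of the graphs having at most `s` common points,
* any two of the graphs meeting (in projection) in a curve with at most `t` exceptional points and
  at most `t` arcs,
* no four functions agreeing at a point,

has a minimization diagram with at most `C n ^ (2 + ε)` faces, edges and vertices.  The hypotheses
are purely topological: nothing is assumed about monotonicity of the intersection curves, about
transversality or about algebraicity.
-/

namespace Pool.Agent.Results.MP_07d5fa_co.NearQuadratic

open Pool.Agent.Helper57.Env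

theorem result (s t : ℕ) (ε : ℝ) (hε : 0 < ε) :
    ∃ C : ℝ, ∀ (n : ℕ) (f : Fin n → ℝ × ℝ → ℝ), Fam s t f →
      ∃ k : ℕ, kappa f = k ∧ (k : ℝ) ≤ C * (n : ℝ) ^ (2 + ε) :=
  main_bound Pool.Agent.Helper3.Env.stmtCharge Pool.Agent.Helper3.Env.stmtDich
    Pool.Agent.Helper89.Env.stmtSample Pool.Agent.Helper89.Env.stmtClean1
    (Pool.Agent.Helper42.Env.stmtClean2 Pool.Agent.Helper89.Env.stmtOuter
      Pool.Agent.Helper89.Env.stmtNest)
    Pool.Agent.Helper77.Env.stmtRec stmtPar Pool.Agent.Helper8.Env.stmtEdges
    Pool.Agent.Helper8.Env.stmtFaces s t ε hε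

end Pool.Agent.Results.MP_07d5fa_co.NearQuadratic
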